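import Mathlib
import Pool.Agent.V1189.RT.Lang

/-!
# The digits of good rational approximations to algebraic numbers

Let `ξ` be a real irrational algebraic number and `b ≥ 2`. Let `K > 0` and consider the fractions `p / q`
with `|ξ - p / q| ≤ K / q ^ 2`. These include the convergents of `ξ` and, for `q ≥ 3`, all fractions
violating the inequality `|ξ - p / q| > c / (q ^ 2 (log q) ^ (1 + δ))` in Lang's conjecture, with
`0 < c ≤ K` and `δ > 0`.

We take a window of `l` consecutive digits of `q` and a window of `l` consecutive digits of `|p|`, in base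
`b` and at arbitrary places. Their joint order is the least `m` such that both words satisfy a common
nontrivial relation

  `a_0 s_i + a_1 s_(i+1) + … + a_m s_(i+m) = 0`   (`1 ≤ i ≤ l - m`),   `a_0, …, a_m ∈ ℚ` not all `0`.

For all pairs of words it is at most `2 l / 3 + 1`. We prove that for all `ε > 0` there is a constant `C`
such that for all these `p / q` and all windows the joint order is at least `l / 2 - ε log q - C`.
-/

set_option autoImplicit false

namespace Pool.Agent.Results.MP_c307ca_nt.DigitsOfApproximations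

open Finset

/-- the digit of `x` in base `b` at the place of `b ^ h` -/
def digit (b x h : ℕ) : ℕ := x / b ^ h % b

/-- The places `W - 1, …, W - l` are among the places of the digits of `x` in base `b` (which has
`Nat.log b x + 1` digits). -/
structure IsWindow (b x W l : ℕ) : Prop where
  le : l ≤ W
  inside : W ≤ Nat.log b x + 1

/-- The digits of `x` at the places `W - 1, …, W - l` and the digits of `y` at the places
`V - 1, …, V - l` satisfy a common nontrivial linear relation of order `m`. -/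
def HasRelation (b x y W V l m : ℕ) : Prop :=
  ∃ a : ℕ → ℚ, (∃ j ≤ m, a j ≠ 0) ∧ ∀ i : ℕ, 1 ≤ i → i + m ≤ l →
    ∑ j ∈ range (m + 1), a j * (digit b x (W - (i + j)) : ℚ) = 0 ∧
    ∑ j ∈ range (m + 1), a j * (digit b y (V - (i + j)) : ℚ) = 0

/-- the joint order of the two words -/
noncomputable def jointOrder (b x y W V l : ℕ) : ℕ := sInf {m | HasRelation b x y W V l m}

lemma hasRelation_self (b x y W V l : ℕ) : HasRelation b x y W V l l :=
  ⟨fun _ => 1, ⟨0, by omega, one_ne_zero⟩, fun i h1 h2 => by omega⟩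

lemma jointOrder_mem (b x y W V l : ℕ) : HasRelation b x y W V l (jointOrder b x y W V l) :=
  Nat.sInf_mem (s := {m | HasRelation b x y W V l m}) ⟨l, hasRelation_self b x y W V l⟩

lemma jointOrder_le (b x y W V l : ℕ) : jointOrder b x y W V l ≤ l :=
  Nat.sInf_le (hasRelation_self b x y W V l)

/-- the upper bound, by counting equations -/
lemma upper (b x y W V l : ℕ) : (jointOrder b x y W V l : ℝ) ≤ 2 / 3 * (l : ℝ) + 1 := by
  obtain ⟨m, hm⟩ : ∃ m : ℕ, m = (2 * l + 2) / 3 := ⟨_, rfl⟩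
  have hrel : HasRelation b x y W V l m := by
    rcases Nat.lt_or_ge l m with hlm | hlm
    · exact ⟨fun _ => 1, ⟨0, by omega, one_ne_zero⟩, fun i h1 h2 => by omega⟩
    let f : (Fin (m + 1) → ℚ) →ₗ[ℚ] (Fin 2 × Fin (l - m) → ℚ) :=
      LinearMap.pi fun p => ∑ j : Fin (m + 1),
        (if p.1 = 0 then (digit b x (W - (p.2 + 1 + j)) : ℚ) else
          (digit b y (V - (p.2 + 1 + j)) : ℚ)) • LinearMap.proj j
    have hker : LinearMap.ker f ≠ ⊥ := by
      apply LinearMap.ker_ne_bot_of_finrank_lt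
      rw [Module.finrank_fintype_fun_eq_card, Module.finrank_fintype_fun_eq_card, Fintype.card_prod,
        Fintype.card_fin, Fintype.card_fin, Fintype.card_fin]
      omega
    obtain ⟨a, ha, ha0⟩ := (Submodule.ne_bot_iff _).1 hker
    obtain ⟨j0, hj0⟩ : ∃ j, a j ≠ 0 := by
      by_contra h
      push Not at h
      exact ha0 (funext h)
    obtain ⟨a', ha'⟩ : ∃ a' : ℕ → ℚ, ∀ j : Fin (m + 1), a' j = a j :=
      ⟨fun j => if h : j < m + 1 then a ⟨j, h⟩ else 0, fun j => dif_pos j.2⟩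
    refine ⟨a', ⟨j0, by omega, by rw [ha']; exact hj0⟩, fun i h1 h2 => ⟨?_, ?_⟩⟩
    · have h3 := congrFun (LinearMap.mem_ker.1 ha) ((0 : Fin 2), (⟨i - 1, by omega⟩ : Fin (l - m)))
      have h4 : ∑ j : Fin (m + 1), a j * (digit b x (W - (i + j)) : ℚ) = 0 := by
        refine Eq.trans ?_ h3
        simp only [f, LinearMap.pi_apply, LinearMap.sum_apply, LinearMap.smul_apply,
          LinearMap.proj_apply, smul_eq_mul, if_true]
        refine Finset.sum_congr rfl fun j _ => ?_
        rw [mul_comm, show i - 1 + 1 + (j : ℕ) = i + j by omega]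
      refine Eq.trans ?_ h4
      rw [Finset.sum_range]
      exact Finset.sum_congr rfl fun j _ => by rw [ha']
    · have h3 := congrFun (LinearMap.mem_ker.1 ha) ((1 : Fin 2), (⟨i - 1, by omega⟩ : Fin (l - m)))
      have h4 : ∑ j : Fin (m + 1), a j * (digit b y (V - (i + j)) : ℚ) = 0 := by
        refine Eq.trans ?_ h3
        simp only [f, LinearMap.pi_apply, LinearMap.sum_apply, LinearMap.smul_apply,
          LinearMap.proj_apply, smul_eq_mul, if_neg (by decide : ¬ (1 : Fin 2) = 0)]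
        refine Finset.sum_congr rfl fun j _ => ?_
        rw [mul_comm, show i - 1 + 1 + (j : ℕ) = i + j by omega]
      refine Eq.trans ?_ h4
      rw [Finset.sum_range]
      exact Finset.sum_congr rfl fun j _ => by rw [ha']
  have h1 : jointOrder b x y W V l ≤ m := Nat.sInf_le hrel
  have h2 : 3 * jointOrder b x y W V l ≤ 2 * l + 2 := by omega
  have h3 : 3 * (jointOrder b x y W V l : ℝ) ≤ 2 * l + 2 := by exact_mod_cast h2
  linarith

lemma pow_le_of_window {b x W l : ℕ} (hx : x ≠ 0) (hb : 2 ≤ b) (h : IsWindow b x W l) :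
    b ^ W ≤ b * x := by
  have h2 : b ^ Nat.log b x ≤ x := Nat.pow_log_le_self b hx
  calc b ^ W ≤ b ^ (Nat.log b x + 1) := Nat.pow_le_pow_right (by omega) h.inside
    _ = b * b ^ Nat.log b x := by rw [pow_succ']
    _ ≤ b * x := Nat.mul_le_mul_left b h2

/-- from an arbitrary relation to a recurrence -/
lemma monic (b x W l m m' : ℕ) (a : ℕ → ℚ) (hm' : m' ≤ m) (hml : m ≤ l) (ha : a m' ≠ 0)
    (hzero : ∀ j, m' < j → j < m + 1 → a j = 0)
    (hrel : ∀ i : ℕ, 1 ≤ i → i + m ≤ l →
      ∑ j ∈ range (m + 1), a j * (digit b x (W - (i + j)) : ℚ) = 0) :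
    Pool.Agent.Results.MP_a49cf6_nt.DigitRecurrences.Recurrence (fun i => (Pool.Agent.V1189.RT.dH b x (W - i) : ℤ))
      (fun j => -a j / a m') (l - (m - m')) m' := by
  intro i h1 h2
  have h3 := hrel i h1 (by omega)
  have h4 : ∑ j ∈ range (m + 1), a j * (digit b x (W - (i + j)) : ℚ) =
      ∑ j ∈ range (m' + 1), a j * (digit b x (W - (i + j)) : ℚ) := by
    symm
    apply Finset.sum_subset
    · intro j hj
      rw [mem_range] at hj ⊢
      omega
    · intro j hj1 hj2
      rw [mem_range] at hj1 hj2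
      rw [hzero j (by omega) hj1, zero_mul]
  rw [h4, Finset.sum_range_succ] at h3
  have h5 : ((digit b x (W - (i + m')) : ℕ) : ℚ) = ∑ j ∈ range m',
      -a j / a m' * ((digit b x (W - (i + j)) : ℕ) : ℚ) := by
    have h6 : ∑ j ∈ range m', -a j / a m' * ((digit b x (W - (i + j)) : ℕ) : ℚ) =
        -(∑ j ∈ range m', a j * (digit b x (W - (i + j)) : ℚ)) / a m' := by
      rw [← Finset.sum_neg_distrib, Finset.sum_div]
      exact Finset.sum_congr rfl fun j _ => by ring
    rw [h6, eq_div_iff ha]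
    linarith
  exact_mod_cast h5

/-- the lower bound, for positive numbers -/
theorem lower (ξ : ℝ) (hξ0 : 0 < ξ) (halg : IsAlgebraic ℚ ξ) (hirr : Irrational ξ) (b : ℕ)
    (hb : 2 ≤ b) (K : ℝ) (hK : 1 ≤ K) (ε : ℝ) (hε : 0 < ε) :
    ∃ C : ℝ, 0 ≤ C ∧ ∀ q p : ℕ, 1 ≤ q → q * |q * ξ - p| ≤ K → ∀ W V l : ℕ,
      IsWindow b q W l → IsWindow b p V l →
      (l : ℝ) / 2 - ε * Real.log q - C ≤ jointOrder b q p W V l := by
  have hbR : (2 : ℝ) ≤ b := by exact_mod_cast hb
  obtain ⟨L, hL⟩ : ∃ L : ℝ, L = Real.log b := ⟨_, rfl⟩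
  have hL0 : 0 < L := by rw [hL]; exact Real.log_pos (by linarith)
  obtain ⟨C1, hC10, hC1⟩ := Pool.Agent.V1189.RT.langDigits b hb ξ hξ0 halg hirr K hK (ε / 2)
    (by linarith)
  obtain ⟨κ, hκ⟩ : ∃ κ : ℝ, κ = ε / 2 * L := ⟨_, rfl⟩
  have hκ0 : 0 < κ := by rw [hκ]; positivity
  obtain ⟨K1, hK10, hK1⟩ := Pool.Agent.Results.MP_a49cf6_nt.DigitRecurrences.F_linear 17 κ
    (by norm_num) hκ0
  refine ⟨C1 + (κ + K1) + 1, by positivity, fun q p hq hqp W V l hW hV => ?_⟩
  have hqR : (1 : ℝ) ≤ q := by exact_mod_cast hq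
  have hlq : 0 ≤ Real.log q := Real.log_nonneg hqR
  rcases Nat.eq_zero_or_pos p with hp0 | hp0
  · subst hp0
    have h1 : l ≤ 1 := by
      have h2 := hV.le
      have h3 := hV.inside
      rw [Nat.log_zero_right] at h3
      omega
    have h2 : (l : ℝ) ≤ 1 := by exact_mod_cast h1
    have h3 : (0 : ℝ) ≤ jointOrder b q 0 W V l := Nat.cast_nonneg _
    have h4 : 0 ≤ ε * Real.log q := by positivity
    linarith
  obtain ⟨m, hm⟩ : ∃ m, m = jointOrder b q p W V l := ⟨_, rfl⟩
  obtain ⟨a, ⟨j1, hj1, haj1⟩, hrel⟩ := jointOrder_mem b q p W V l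
  have hml : m ≤ l := by rw [hm]; exact jointOrder_le _ _ _ _ _ _
  rw [← hm] at hj1 hrel ⊢
  obtain ⟨m', hm', hmax⟩ := Finset.exists_max_image ((range (m + 1)).filter fun j => a j ≠ 0) id
    ⟨j1, by rw [mem_filter, mem_range]; exact ⟨by omega, haj1⟩⟩
  rw [mem_filter, mem_range] at hm'
  have hzero : ∀ j, m' < j → j < m + 1 → a j = 0 := by
    intro j h1 h2
    by_contra h3
    have := hmax j (by rw [mem_filter, mem_range]; exact ⟨h2, h3⟩)
    simp only [id] at this
    omega
  have hmain := hC1 q p hq hqp W V (l - (m - m')) m' (fun j => -a j / a m')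
    (by have := hW.le; omega) (by have := hV.le; omega)
    (pow_le_of_window (by omega) hb hW) (pow_le_of_window (by omega) hb hV)
    (monic b q W l m m' a (by omega) hml hm'.2 hzero fun i h1 h2 => (hrel i h1 h2).1)
    (monic b p V l m m' a (by omega) hml hm'.2 hzero fun i h1 h2 => (hrel i h1 h2).2)
  have h2 := hK1 m'
  have h3 : (m' : ℝ) + 15 * Pool.Agent.W47.JL.err m' ≤
      Pool.Agent.Results.MP_a49cf6_nt.DigitRecurrences.F 17 m' := by
    have h4 := Pool.Agent.W47.JL.err_ge m'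
    have h5 : Pool.Agent.Results.MP_a49cf6_nt.DigitRecurrences.F 17 m' =
      m' + 17 * Pool.Agent.W47.JL.err m' := rfl
    rw [h5]; linarith
  have hm'm : (m' : ℝ) ≤ m := by exact_mod_cast (by omega : m' ≤ m)
  have hmlR : (m : ℝ) ≤ l := by exact_mod_cast hml
  have hm0 : (0 : ℝ) ≤ m' := Nat.cast_nonneg _
  have hcast : ((l - (m - m') : ℕ) : ℝ) = l - m + m' := by
    rw [Nat.cast_sub (by omega), Nat.cast_sub (by omega)]
    ring
  rw [hcast] at hmain
  -- `l log b ≤ log b + log q`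
  have hl : (l : ℝ) * L ≤ L + Real.log q := by
    have h5 : ((b : ℝ)) ^ W ≤ b * q := by
      exact_mod_cast pow_le_of_window (by omega) hb hW
    have h6 := Real.log_le_log (by positivity) h5
    rw [Real.log_pow, Real.log_mul (by positivity) (by positivity), ← hL] at h6
    have h7 : (l : ℝ) ≤ W := by exact_mod_cast hW.le
    have h8 := mul_le_mul_of_nonneg_right h7 hL0.le
    linarith
  have hκl : κ * (l : ℝ) ≤ ε / 2 * Real.log q + κ := by
    have h5 : κ * (l : ℝ) = ε / 2 * (l * L) := by rw [hκ]; ring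
    have h6 := mul_le_mul_of_nonneg_left hl (by positivity : 0 ≤ ε / 2)
    have h7 : ε / 2 * (L + Real.log q) = ε / 2 * Real.log q + κ := by rw [hκ]; ring
    linarith
  have h5 : κ * (m' : ℝ) ≤ κ * l := mul_le_mul_of_nonneg_left (hm'm.trans hmlR) hκ0.le
  nlinarith

/-- **The digits of good rational approximations to algebraic numbers.** See the text at the beginning
of the file. -/
theorem result (ξ : ℝ) (halg : IsAlgebraic ℚ ξ) (hirr : Irrational ξ) (b : ℕ) (hb : 2 ≤ b)
    (K : ℝ) (ε : ℝ) (hε : 0 < ε) :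
    ∃ C : ℝ, ∀ (p : ℤ) (q : ℕ), 1 ≤ q → |ξ - p / q| ≤ K / q ^ 2 → ∀ W V l : ℕ,
      IsWindow b q W l → IsWindow b p.natAbs V l →
      (l : ℝ) / 2 - ε * Real.log q - C ≤ jointOrder b q p.natAbs W V l ∧
      (jointOrder b q p.natAbs W V l : ℝ) ≤ 2 / 3 * (l : ℝ) + 1 := by
  have hξ : 0 < |ξ| := abs_pos.2 hirr.ne_zero
  have halg' : IsAlgebraic ℚ |ξ| := by
    rcases abs_choice ξ with h | h
    · rw [h]; exact halg
    · rw [h]; exact halg.neg
  have hirr' : Irrational |ξ| := by
    rcases abs_choice ξ with h | h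
    · rw [h]; exact hirr
    · rw [h]; exact hirr.neg
  obtain ⟨C, -, hC⟩ := lower |ξ| hξ halg' hirr' b hb (max K 1) (le_max_right _ _) ε hε
  refine ⟨C, fun p q hq hpq W V l hW hV => ⟨hC q p.natAbs hq ?_ W V l hW hV, upper _ _ _ _ _ _⟩⟩
  have hqR : (1 : ℝ) ≤ q := by exact_mod_cast hq
  have hq0 : (0 : ℝ) < q := by linarith
  have h1 : (p.natAbs : ℝ) = |(p : ℝ)| := by
    rw [Nat.cast_natAbs, Int.cast_abs]
  have h2 : |(q : ℝ) * |ξ| - p.natAbs| ≤ |q * ξ - p| := by
    rw [h1, show (q : ℝ) * |ξ| = |q * ξ| by rw [abs_mul, Nat.abs_cast]]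
    exact abs_abs_sub_abs_le_abs_sub _ _
  have h3 : (q : ℝ) * ξ - p = q * (ξ - p / q) := by field_simp
  have h4 : |(q : ℝ) * ξ - p| = q * |ξ - p / q| := by
    rw [h3, abs_mul, Nat.abs_cast]
  calc (q : ℝ) * |(q : ℝ) * |ξ| - p.natAbs| ≤ q * (q * |ξ - p / q|) := by
        rw [← h4]; exact mul_le_mul_of_nonneg_left h2 hq0.le
    _ ≤ q * (q * (K / q ^ 2)) := by gcongr
    _ = K := by field_simp
    _ ≤ max K 1 := le_max_left _ _

end Pool.Agent.Results.MP_c307ca_nt.DigitsOfApproximations
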