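import Pool.Agent.Results.MP_c307ca_nt.RootsNearRays
import Pool.Agent.H64.CL.Vec

/-!
# A Lang type inequality for the roots of ALL small integral polynomials in random residue classes

Let `m_0 = 1, m_1, m_2, …` be integers with `m_(j+1) = m_j (b_j + 2)`, `b_j ≥ 0` arbitrary (for instance `m_j = q ^ j` for a
number `q ≥ 2`, or `m_j = (j + 1)!`), and let `n_(i,j)`, `0 ≤ i ≤ d`, be the integers modulo `m_j` which have the first `j`
digits (for these bases) of `d + 1` independent random sequences of independent uniform digits; so the `n_(i,j)` are the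
residue classes modulo `m_j` of `d + 1` independent random `q`-adic (or profinite) integers. Almost surely, for every `B`
and all large `j`, ALL integral polynomials `P` of degree `d`, irreducible over `ℚ`, with `P_i ≡ n_(i,j)` modulo `m_j` and
`|P_i| ≤ m_j (log m_j) ^ B` have the following property: for all real roots `ξ` of `P`, all integers `p` and all
`2 ≤ q ≤ H(P)`

`|ξ - p / q| > 1 / (q ^ 2 (log q) ^ (1 + ε) (log H(P)) ^ A)`, `A = (d + 2) ((d + 1) B + 3)`.

The proof combines the count of the exceptional vectors of coefficients in `RootsNearRays` with the Borel-Cantelli lemma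
for residue classes (`Pool.Agent.V11312.PW.DigitsVec`).
-/

set_option autoImplicit false

namespace Pool.Agent.Results.MP_c307ca_nt.RootsInResidueClasses

open Finset Filter Polynomial MeasureTheory Topology
open Pool.Agent.Results.MP_c307ca_nt.RootsNearRays (Bad count lang_of height)
open Pool.Agent.V11312.PD (law value modulus InClass)

/-- The coefficients `P_i`, `i ≤ d`, are congruent to the integers `n_(i,j)` with the first `j` digits `ω_i` modulo `m_j`, and
`|P_i| ≤ m_j (log m_j) ^ B`. -/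
def InClasses (b : ℕ → ℕ) (d : ℕ) (ω : Fin (d + 1) → (∀ i, Fin (b i + 2))) (B j : ℕ) (P : ℤ[X]) : Prop :=
  ∀ i : Fin (d + 1), |(P.coeff i : ℝ)| ≤ modulus b j * Real.log (modulus b j) ^ B ∧
    (value b (ω i) j : ℤ) ≡ P.coeff i [ZMOD (modulus b j : ℤ)]

/-- **Theorem.** Let `d ≥ 2`, `ε > 0` and let `b` be any sequence of bases. For almost all sequences of digits `ω_0, …, ω_d`,
for every `B` and all large `j`: for ALL integral polynomials `P` of degree `d`, irreducible over `ℚ`, with `P_i ≡ n_(i,j)`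
modulo `m_j` and `|P_i| ≤ m_j (log m_j) ^ B`, all real roots `ξ` of `P`, all integers `p` and all `2 ≤ q ≤ H(P)`,
`|ξ - p / q| > 1 / (q ^ 2 (log q) ^ (1 + ε) (log H(P)) ^ A)`, where `A = (d + 2) ((d + 1) B + 3)`. -/
theorem result (d : ℕ) (hd : 2 ≤ d) (ε : ℝ) (hε : 0 < ε) (b : ℕ → ℕ) :
    ∀ᵐ ω ∂(Measure.pi fun _ : Fin (d + 1) => law b), ∀ B : ℕ, ∃ j₀ : ℕ, ∀ j : ℕ, j₀ ≤ j →
      ∀ P : ℤ[X], P.natDegree = d → Irreducible (P.map (Int.castRingHom ℚ)) → InClasses b d ω B j P →
        ∀ ξ : ℝ, Polynomial.aeval ξ P = 0 → ∀ (p : ℤ) (q : ℕ), 2 ≤ q → q ≤ height d P →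
          1 / ((q : ℝ) ^ 2 * Real.log q ^ (1 + ε) *
            Real.log (height d P) ^ (((d : ℝ) + 2) * (((d : ℝ) + 1) * B + 3))) < |ξ - (p : ℝ) / q| := by
  rw [ae_all_iff]
  intro B
  set K : ℝ := ((d : ℝ) + 1) * B + 3 with hK
  have hK1 : 1 ≤ K := by
    have : 0 ≤ ((d : ℝ) + 1) * B := by positivity
    linarith
  obtain ⟨C, hC, H₀, hcount⟩ := count d ε K hε hK1
  have hev : ∀ᶠ H : ℕ in atTop, C * 3 ^ (d + 1) + 1 ≤ Real.log (H : ℝ) :=
    (Real.tendsto_log_atTop.comp tendsto_natCast_atTop_atTop).eventually_ge_atTop _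
  obtain ⟨H₁, hH₁⟩ := eventually_atTop.1 hev
  have h := Pool.Agent.H64.CL.ae_classes_fixed b (s := d + 1) (Bad d ε (K * (d + 2))) B
    ⟨max (max H₀ H₁) 3, fun X hX => ?_⟩
  · filter_upwards [h] with ω hω
    obtain ⟨j₀, hj₀⟩ := hω
    refine ⟨j₀, fun j hj P hPd hPirr hP ξ hξ p q hq2 hqH => ?_⟩
    have hnb := hj₀ j hj (fun i : Fin (d + 1) => P.coeff i) (fun i => hP i)
    have hA : ((d : ℝ) + 2) * K = K * (d + 2) := by ring
    rw [hA]
    exact lang_of d hd ε (K * (d + 2)) hε P hPd hPirr (hq2.trans hqH) hnb ξ hξ p q hq2 hqH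
  · have hX0 : H₀ ≤ X := ((le_max_left _ _).trans (le_max_left _ _)).trans hX
    have hX1 : H₁ ≤ X := ((le_max_right _ _).trans (le_max_left _ _)).trans hX
    have hX3 : 3 ≤ X := (le_max_right _ _).trans hX
    have hXr : (3 : ℝ) ≤ X := by exact_mod_cast hX3
    have hL := hH₁ X hX1
    obtain ⟨L, hLdef⟩ : ∃ L : ℝ, L = Real.log (X : ℝ) := ⟨_, rfl⟩
    rw [← hLdef] at hL ⊢
    have h3 : (0 : ℝ) ≤ C * 3 ^ (d + 1) := by positivity
    have hL0 : 0 < L := by linarith
    refine (hcount X hX0).trans ?_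
    rw [← hLdef]
    have hpow : L ^ (-K) = 1 / (L ^ ((d + 1) * B + 2) * L) := by
      rw [Real.rpow_neg hL0.le, one_div]
      congr 1
      rw [← pow_succ, ← Real.rpow_natCast]
      congr 1
      rw [hK]
      push_cast
      ring
    have h1 : (2 * (X : ℝ) + 1) ^ (d + 1) ≤ 3 ^ (d + 1) * (X : ℝ) ^ (d + 1) := by
      rw [← mul_pow]
      exact pow_le_pow_left₀ (by positivity) (by linarith) _
    have hLn : 0 < L ^ ((d + 1) * B + 2) := by positivity
    have h2 : 0 ≤ C * L ^ (-K) := mul_nonneg hC (Real.rpow_nonneg hL0.le _)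
    refine (mul_le_mul_of_nonneg_right h1 h2).trans ?_
    rw [hpow]
    have hXp : (0 : ℝ) ≤ (X : ℝ) ^ (d + 1) := by positivity
    have e1 : 3 ^ (d + 1) * (X : ℝ) ^ (d + 1) * (C * (1 / (L ^ ((d + 1) * B + 2) * L))) =
        (X : ℝ) ^ (d + 1) / L ^ ((d + 1) * B + 2) * (C * 3 ^ (d + 1) / L) := by
      field_simp
    rw [e1]
    have h4 : C * 3 ^ (d + 1) / L ≤ 1 := by
      rw [div_le_one hL0]
      linarith
    calc (X : ℝ) ^ (d + 1) / L ^ ((d + 1) * B + 2) * (C * 3 ^ (d + 1) / L)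
        ≤ (X : ℝ) ^ (d + 1) / L ^ ((d + 1) * B + 2) * 1 :=
          mul_le_mul_of_nonneg_left h4 (by positivity)
      _ = _ := mul_one _

end Pool.Agent.Results.MP_c307ca_nt.RootsInResidueClasses
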