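import Pool.Agent.Results.MP_c307ca_nt.AlmostAllToHeight
import Pool.Agent.V35.WAE

/-!
# A Lang type inequality for the roots of ALL integral polynomials near `b ^ n α`, for almost every `α`

The starting result `AlmostAllToHeight` says that all but a small proportion of the real algebraic numbers of degree `d`
and height at most `H` satisfy `|ξ - p / q| > c / (q ^ 2 (log q) ^ (1 + ε))` for all `2 ≤ q ≤ H`. It says nothing about
given algebraic numbers. Here we consider ALL irreducible integral polynomials `P` of degree `d` whose vector of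
coefficients is in the box of side `n ^ κ` around `b ^ n α`, for a real vector `α`.
-/

set_option autoImplicit false

namespace Pool.Agent.Results.MP_c307ca_nt.RootsNearRays

open Finset Filter Polynomial MeasureTheory Topology
open Pool.Agent.Results.MP_c307ca_nt.AlmostAllToHeight
open Pool.Agent.V35.WM Pool.Agent.V35.WB

/-- the height of an integral vector: the maximum of the absolute values of its entries -/
def hgt {m : ℕ} (a : Fin m → ℤ) : ℕ := Finset.univ.sup (fun i => (a i).natAbs)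

lemma le_hgt {m : ℕ} (a : Fin m → ℤ) (i : Fin m) : |a i| ≤ (hgt a : ℤ) := by
  rw [Int.abs_eq_natAbs]
  exact_mod_cast Finset.le_sup (f := fun i => (a i).natAbs) (Finset.mem_univ i)

lemma hgt_le {m : ℕ} {a : Fin m → ℤ} {H : ℕ} (h : ∀ i, |a i| ≤ (H : ℤ)) : hgt a ≤ H := by
  refine Finset.sup_le fun i _ => ?_
  have := h i
  rw [Int.abs_eq_natAbs] at this
  exact_mod_cast this

/-- an exceptional vector of coefficients -/
def Bad (d : ℕ) (ε A : ℝ) (a : Fin (d + 1) → ℤ) : Prop :=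
  a (Fin.last d) ≠ 0 ∧ (∀ (p : ℤ) (q : ℤ), 0 < q → ev a ((p : ℝ) / q) ≠ 0) ∧
    ∃ ξ : ℝ, ev a ξ = 0 ∧ ∃ (p : ℤ) (q : ℕ), 1 ≤ q ∧ q ≤ hgt a ∧ IsCoprime p (q : ℤ) ∧
      |ξ - (p : ℝ) / q| ≤ Real.log (hgt a) ^ (-A) * w ε q

lemma eventually_conditions (K ε A : ℝ) (hA : 0 < A) :
    ∀ᶠ H : ℕ in atTop, 1 ≤ Real.log H ∧ Real.log H ^ K ≤ 2 * (H : ℝ) + 1 ∧
      K * Real.log (Real.log H) ≤ 1 / 2 * Real.log H ∧
      2 ^ A * Real.log H ^ (-A) ≤ Real.log 2 ^ (1 + ε) := by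
  have hlog : Tendsto (fun H : ℕ => Real.log (H : ℝ)) atTop atTop :=
    Real.tendsto_log_atTop.comp tendsto_natCast_atTop_atTop
  have e1 : ∀ᶠ H : ℕ in atTop, 1 ≤ Real.log H := hlog.eventually_ge_atTop 1
  have e2 : ∀ᶠ H : ℕ in atTop, Real.log H ^ K ≤ 2 * (H : ℝ) + 1 := by
    have h1 := (isLittleO_log_rpow_rpow_atTop K (zero_lt_one)).bound (zero_lt_one (α := ℝ))
    have h2 := tendsto_natCast_atTop_atTop (R := ℝ) |>.eventually h1
    filter_upwards [h2, e1] with H hH h3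
    rw [one_mul, Real.rpow_one, Real.norm_eq_abs, Real.norm_eq_abs, abs_of_nonneg (by positivity),
      abs_of_nonneg (Nat.cast_nonneg H)] at hH
    have : (0 : ℝ) ≤ H := Nat.cast_nonneg H
    linarith
  have e3 : ∀ᶠ H : ℕ in atTop, K * Real.log (Real.log H) ≤ 1 / 2 * Real.log H := by
    have h1 := Real.isLittleO_log_id_atTop.bound (show (0 : ℝ) < 1 / (2 * (|K| + 1)) by positivity)
    have h2 := hlog.eventually h1
    filter_upwards [h2, e1] with H hH h3
    rw [Real.norm_eq_abs, Real.norm_eq_abs, id, abs_of_nonneg (Real.log_nonneg h3),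
      abs_of_nonneg (show (0 : ℝ) ≤ Real.log H by linarith)] at hH
    have h4 : K * Real.log (Real.log H) ≤ |K| * Real.log (Real.log H) :=
      mul_le_mul_of_nonneg_right (le_abs_self K) (Real.log_nonneg h3)
    have h5 : |K| * Real.log (Real.log H) ≤ (|K| + 1) * (1 / (2 * (|K| + 1)) * Real.log H) := by
      apply mul_le_mul (by linarith) hH (Real.log_nonneg h3) (by positivity)
    have h6 : (|K| + 1) * (1 / (2 * (|K| + 1)) * Real.log H) = 1 / 2 * Real.log H := by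
      field_simp
    linarith
  have e4 : ∀ᶠ H : ℕ in atTop, 2 ^ A * Real.log H ^ (-A) ≤ Real.log 2 ^ (1 + ε) := by
    have h1 : Tendsto (fun H : ℕ => 2 ^ A * Real.log (H : ℝ) ^ (-A)) atTop (𝓝 (2 ^ A * 0)) :=
      ((tendsto_rpow_neg_atTop hA).comp hlog).const_mul _
    rw [mul_zero] at h1
    have h2 : (0 : ℝ) < Real.log 2 ^ (1 + ε) := Real.rpow_pos_of_pos (Real.log_pos (by norm_num)) _
    exact (h1.eventually (gt_mem_nhds h2)).mono fun H hH => hH.le
  filter_upwards [e1, e2, e3, e4] with H h1 h2 h3 h4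
  exact ⟨h1, h2, h3, h4⟩

/-- the number of the exceptional vectors in cubes -/
theorem count (d : ℕ) (ε K : ℝ) (hε : 0 < ε) (hK : 1 ≤ K) :
    ∃ C : ℝ, 0 ≤ C ∧ ∃ H₀ : ℕ, ∀ H : ℕ, H₀ ≤ H →
      ({a : Fin (d + 1) → ℤ | (∀ i, |a i| ≤ (H : ℤ)) ∧ Bad d ε (K * (d + 2)) a}.ncard : ℝ) ≤
        (2 * (H : ℝ) + 1) ^ (d + 1) * (C * Real.log H ^ (-K)) := by
  classical
  set A : ℝ := K * (d + 2) with hA
  have hA0 : 0 < A := by positivity
  obtain ⟨H₁, hH₁⟩ := eventually_atTop.1 (eventually_conditions K ε A hA0)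
  set Sw : ℝ := ∑' q : ℕ, (q : ℝ) * w ε q with hS
  have hS0 : 0 ≤ Sw := tsum_nonneg fun q => mul_nonneg (Nat.cast_nonneg q) (w_pos ε q).le
  set C1 : ℝ := 6 * d * (d + 1) * 4 ^ d * 5 ^ (d + 1) with hC1
  have hC10 : 0 ≤ C1 := by positivity
  refine ⟨2 ^ (d + 1) + (2 * 3 ^ d + 2 ^ A * C1 * Sw), by positivity, max H₁ 1, fun H hH => ?_⟩
  obtain ⟨g1, g2, g3, g4⟩ := hH₁ H ((le_max_left _ _).trans hH)
  have hH1 : 1 ≤ H := (le_max_right _ _).trans hH
  have hHr : (1 : ℝ) ≤ H := by exact_mod_cast hH1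
  have hH0 : (0 : ℝ) < H := by linarith
  set L : ℝ := Real.log H with hL
  have hL0 : 0 < L := by linarith
  have hLK : 0 < L ^ K := Real.rpow_pos_of_pos hL0 K
  have hLK1 : 1 ≤ L ^ K := Real.one_le_rpow g1 (by linarith)
  -- small vectors
  set H' : ℕ := ⌊(H : ℝ) / L ^ K⌋₊ with hH'
  set B1 : Finset (Fin (d + 1) → ℤ) := box (d + 1) (H' : ℤ) with hB1
  have c1 : (B1.card : ℝ) ≤ (2 * (H : ℝ) + 1) ^ (d + 1) * (2 ^ (d + 1) * L ^ (-K)) := by
    rw [hB1, card_box]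
    push_cast
    have h1 : (H' : ℝ) ≤ (H : ℝ) / L ^ K := Nat.floor_le (by positivity)
    have h2 : 2 * (H' : ℝ) + 1 ≤ 2 * (2 * (H : ℝ) + 1) * (L ^ K)⁻¹ := by
      have h3 : (1 : ℝ) ≤ (2 * (H : ℝ) + 1) * (L ^ K)⁻¹ := by
        rw [← div_eq_mul_inv, le_div_iff₀ hLK, one_mul]
        exact g2
      have h4 : 2 * (H' : ℝ) ≤ (2 * (H : ℝ) + 1) * (L ^ K)⁻¹ := by
        have : (H : ℝ) / L ^ K * 2 ≤ (2 * (H : ℝ) + 1) * (L ^ K)⁻¹ := by
          rw [div_eq_mul_inv]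
          have h5 : (0 : ℝ) ≤ (L ^ K)⁻¹ := by positivity
          nlinarith
        linarith
      linarith
    calc (2 * (H' : ℝ) + 1) ^ (d + 1) ≤ (2 * (2 * (H : ℝ) + 1) * (L ^ K)⁻¹) ^ (d + 1) :=
          pow_le_pow_left₀ (by positivity) h2 _
      _ = (2 * (H : ℝ) + 1) ^ (d + 1) * (2 ^ (d + 1) * ((L ^ K)⁻¹) ^ (d + 1)) := by
          rw [mul_pow, mul_pow]
          ring
      _ ≤ (2 * (H : ℝ) + 1) ^ (d + 1) * (2 ^ (d + 1) * L ^ (-K)) := by
          refine mul_le_mul_of_nonneg_left (mul_le_mul_of_nonneg_left ?_ (by positivity)) (by positivity)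
          rw [Real.rpow_neg hL0.le]
          calc ((L ^ K)⁻¹) ^ (d + 1) ≤ ((L ^ K)⁻¹) ^ 1 :=
                pow_le_pow_of_le_one (by positivity) (inv_le_one_of_one_le₀ hLK1) (by omega)
            _ = (L ^ K)⁻¹ := pow_one _
  -- large vectors
  set T : ℕ := ⌈L ^ K⌉₊ + 2 with hT
  have hT2 : 2 ≤ T := by omega
  have hTr : (T : ℝ) = (⌈L ^ K⌉₊ : ℝ) + 2 := by rw [hT]; push_cast; ring
  have hT1 : L ^ K ≤ (T : ℝ) - 1 := by
    have := Nat.le_ceil (L ^ K)
    rw [hTr]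
    linarith
  have hT3 : (T : ℝ) + 1 ≤ 5 * L ^ K := by
    have := (Nat.ceil_lt_add_one hLK.le).le
    rw [hTr]
    linarith
  set c : ℝ := 2 ^ A * L ^ (-A) with hc
  have hc0 : 0 < c := by positivity
  set B2 : Finset (Fin (d + 1) → ℤ) := (box (d + 1) (H : ℤ)).filter
    (fun a => Bad d ε A a ∧ H' < hgt a) with hB2
  have c2 := main_count d ε hε T hT2 c hc0 g4 H hH1 B2 (by
    intro a ha
    rw [hB2, Finset.mem_filter] at ha
    obtain ⟨hbox, ⟨hb1, hb2, ξ, hξ, p, q, hq1, hqh, hpq, hle⟩, hH'a⟩ := ha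
    have hai : ∀ i, |a i| ≤ (H : ℤ) := by
      intro i
      unfold Pool.Agent.Results.MP_c307ca_nt.AlmostAllToHeight.box at hbox
      rw [Fintype.mem_piFinset] at hbox
      exact abs_le.2 (Finset.mem_Icc.1 (hbox i))
    refine ⟨hai, hb1, hb2, ξ, hξ, p, q, hq1, hqh.trans (hgt_le hai), hpq, hle.trans ?_⟩
    refine mul_le_mul_of_nonneg_right ?_ (w_pos ε q).le
    have h1 : (H : ℝ) / L ^ K ≤ hgt a := by
      have h2 := Nat.lt_floor_add_one ((H : ℝ) / L ^ K)
      have h3 : ((H' + 1 : ℕ) : ℝ) ≤ hgt a := by exact_mod_cast hH'a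
      push_cast at h3
      rw [← hH'] at h2
      linarith
    have h2 : L / 2 ≤ Real.log (hgt a) := by
      have h3 : Real.log ((H : ℝ) / L ^ K) ≤ Real.log (hgt a) :=
        Real.log_le_log (by positivity) h1
      rw [Real.log_div hH0.ne' hLK.ne', Real.log_rpow hL0] at h3
      linarith
    have h3 : Real.log (hgt a) ^ (-A) ≤ (L / 2) ^ (-A) :=
      Real.rpow_le_rpow_of_nonpos (by linarith) h2 (by linarith)
    refine h3.trans (le_of_eq ?_)
    rw [hc, Real.div_rpow hL0.le (by norm_num), Real.rpow_neg (by norm_num : (0 : ℝ) ≤ 2)]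
    field_simp)
  have c3 : (B2.card : ℝ) ≤ (2 * (H : ℝ) + 1) ^ (d + 1) * ((2 * 3 ^ d + 2 ^ A * C1 * Sw) * L ^ (-K)) := by
    refine c2.trans ?_
    have h1 : 2 * 3 ^ d / ((T : ℝ) - 1) ≤ 2 * 3 ^ d * L ^ (-K) := by
      rw [Real.rpow_neg hL0.le, ← div_eq_mul_inv]
      exact div_le_div_of_nonneg_left (by positivity) hLK hT1
    have h2 : (2 * (T : ℝ) + 3) * (2 * KK d T * 4 ^ d) ≤ C1 * (L ^ K) ^ (d + 1) := by
      have h3 : (2 * (T : ℝ) + 3) * (2 * KK d T * 4 ^ d) ≤ 6 * d * (d + 1) * 4 ^ d * ((T : ℝ) + 1) ^ (d + 1) := by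
        have h4 : (2 * (T : ℝ) + 3) ≤ 3 * ((T : ℝ) + 1) := by
          have : (2 : ℝ) ≤ T := by exact_mod_cast hT2
          linarith
        have h5 : 0 ≤ 2 * KK d T * 4 ^ d := by
          have := KK_nonneg d T
          positivity
        refine (mul_le_mul_of_nonneg_right h4 h5).trans (le_of_eq ?_)
        unfold KK
        ring
      refine h3.trans ?_
      have h6 : ((T : ℝ) + 1) ^ (d + 1) ≤ (5 * L ^ K) ^ (d + 1) := pow_le_pow_left₀ (by positivity) hT3 _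
      calc 6 * (d : ℝ) * (d + 1) * 4 ^ d * ((T : ℝ) + 1) ^ (d + 1)
          ≤ 6 * (d : ℝ) * (d + 1) * 4 ^ d * (5 * L ^ K) ^ (d + 1) :=
            mul_le_mul_of_nonneg_left h6 (by positivity)
        _ = C1 * (L ^ K) ^ (d + 1) := by
            rw [hC1, mul_pow]
            ring
    have h3 : c * ((2 * (T : ℝ) + 3) * (2 * KK d T * 4 ^ d)) ≤ 2 ^ A * C1 * L ^ (-K) := by
      calc c * ((2 * (T : ℝ) + 3) * (2 * KK d T * 4 ^ d)) ≤ c * (C1 * (L ^ K) ^ (d + 1)) :=
            mul_le_mul_of_nonneg_left h2 hc0.le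
        _ = 2 ^ A * C1 * (L ^ (-A) * (L ^ K) ^ (d + 1)) := by rw [hc]; ring
        _ = 2 ^ A * C1 * L ^ (-K) := by
            congr 1
            rw [← Real.rpow_natCast, ← Real.rpow_mul hL0.le, ← Real.rpow_add hL0]
            congr 1
            rw [hA]
            push_cast
            ring
    have h4 : 2 * 3 ^ d / ((T : ℝ) - 1) + c * ((2 * (T : ℝ) + 3) * (2 * KK d T * 4 ^ d)) * Sw ≤
        (2 * 3 ^ d + 2 ^ A * C1 * Sw) * L ^ (-K) := by
      have h5 := mul_le_mul_of_nonneg_right h3 hS0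
      have h6 : (2 * 3 ^ d + 2 ^ A * C1 * Sw) * L ^ (-K) = 2 * 3 ^ d * L ^ (-K) + 2 ^ A * C1 * L ^ (-K) * Sw := by
        ring
      rw [h6]
      linarith
    have h5 : (0 : ℝ) ≤ (2 * 3 ^ d + 2 ^ A * C1 * Sw) * L ^ (-K) := by positivity
    calc (H : ℝ) ^ (d + 1) * (2 * 3 ^ d / ((T : ℝ) - 1) +
          c * ((2 * (T : ℝ) + 3) * (2 * KK d T * 4 ^ d)) * Sw)
        ≤ (H : ℝ) ^ (d + 1) * ((2 * 3 ^ d + 2 ^ A * C1 * Sw) * L ^ (-K)) :=
          mul_le_mul_of_nonneg_left h4 (by positivity)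
      _ ≤ (2 * (H : ℝ) + 1) ^ (d + 1) * ((2 * 3 ^ d + 2 ^ A * C1 * Sw) * L ^ (-K)) :=
          mul_le_mul_of_nonneg_right (pow_le_pow_left₀ (by positivity) (by linarith) _) h5
  -- together
  have hsub : {a : Fin (d + 1) → ℤ | (∀ i, |a i| ≤ (H : ℤ)) ∧ Bad d ε A a} ⊆ ((B1 ∪ B2 : Finset _) : Set _) := by
    rintro a ⟨h1, h2⟩
    rw [Finset.mem_coe, Finset.mem_union]
    by_cases h3 : H' < hgt a
    · right
      rw [hB2, Finset.mem_filter]
      exact ⟨mem_box h1, h2, h3⟩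
    · left
      rw [hB1]
      refine mem_box fun i => (le_hgt a i).trans ?_
      exact_mod_cast not_lt.1 h3
  have h1 := Set.ncard_le_ncard hsub (Finset.finite_toSet _)
  rw [Set.ncard_coe_finset] at h1
  have h2 : ({a : Fin (d + 1) → ℤ | (∀ i, |a i| ≤ (H : ℤ)) ∧ Bad d ε A a}.ncard : ℝ) ≤ B1.card + B2.card := by
    exact_mod_cast h1.trans (Finset.card_union_le _ _)
  calc ({a : Fin (d + 1) → ℤ | (∀ i, |a i| ≤ (H : ℤ)) ∧ Bad d ε A a}.ncard : ℝ) ≤ B1.card + B2.card := h2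
    _ ≤ (2 * (H : ℝ) + 1) ^ (d + 1) * (2 ^ (d + 1) * L ^ (-K)) +
        (2 * (H : ℝ) + 1) ^ (d + 1) * ((2 * 3 ^ d + 2 ^ A * C1 * Sw) * L ^ (-K)) := add_le_add c1 c3
    _ = (2 * (H : ℝ) + 1) ^ (d + 1) * ((2 ^ (d + 1) + (2 * 3 ^ d + 2 ^ A * C1 * Sw)) * L ^ (-K)) := by ring

/-- the height of a polynomial of degree `d`: the maximum of the absolute values of its coefficients -/
def height (d : ℕ) (P : ℤ[X]) : ℕ := hgt (fun i : Fin (d + 1) => P.coeff i)

/-- from the vectors of coefficients to the roots -/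
lemma lang_of (d : ℕ) (hd : 2 ≤ d) (ε A : ℝ) (hε : 0 < ε) (P : ℤ[X]) (hPd : P.natDegree = d)
    (hPirr : Irreducible (P.map (Int.castRingHom ℚ))) (h1 : 2 ≤ height d P)
    (h : ¬ Bad d ε A (fun i : Fin (d + 1) => P.coeff i)) (ξ : ℝ) (hξ : Polynomial.aeval ξ P = 0) (p : ℤ) (q : ℕ)
    (hq2 : 2 ≤ q) (hqH : q ≤ height d P) :
    1 / ((q : ℝ) ^ 2 * Real.log q ^ (1 + ε) * Real.log (height d P) ^ A) < |ξ - (p : ℝ) / q| := by
  by_contra hcon
  rw [not_lt] at hcon
  refine h ⟨?_, ?_, ξ, ?_, ?_⟩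
  · have h1 : P ≠ 0 := by
      intro h0
      rw [h0, Polynomial.natDegree_zero] at hPd
      omega
    have h2 : P.coeff d ≠ 0 := by
      rw [← hPd]
      exact Polynomial.leadingCoeff_ne_zero.mpr h1
    simpa using h2
  · intro p' q' _
    rw [ev_eq_aeval d P hPd]
    exact no_rat_root d hd P hPd hPirr p' q'
  · rw [ev_eq_aeval d P hPd]
    exact hξ
  · set r : ℚ := (p : ℚ) / ((q : ℤ) : ℚ) with hr
    have h1' : (p : ℝ) / q = (r.num : ℝ) / (r.den : ℝ) := by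
      have h2 : ((r : ℚ) : ℝ) = (r.num : ℝ) / (r.den : ℝ) := Rat.cast_def r
      rw [← h2, hr]
      push_cast
      rfl
    have h3 : (r.den : ℤ) ∣ (q : ℤ) := by
      rw [hr, ← Rat.divInt_eq_div]
      exact Rat.den_dvd p (q : ℤ)
    have h4 : r.den ≤ q := Nat.le_of_dvd (by omega) (by exact_mod_cast h3)
    have h5 : 1 ≤ r.den := r.den_pos
    have h6 : IsCoprime r.num (r.den : ℤ) :=
      Int.isCoprime_iff_gcd_eq_one.mpr (by simpa [Int.gcd] using r.reduced)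
    have h2r : (2 : ℝ) ≤ height d P := by exact_mod_cast h1
    have hlog : 0 < Real.log (height d P) := Real.log_pos (by linarith)
    refine ⟨r.num, r.den, h5, h4.trans hqH, h6, ?_⟩
    rw [← h1']
    refine hcon.trans ?_
    have h7 : 1 / ((q : ℝ) ^ 2 * Real.log q ^ (1 + ε) * Real.log (height d P) ^ A) =
        Real.log (height d P) ^ (-A) * w ε q := by
      rw [← w_eq ε (Real.log (height d P) ^ (-A)) q hq2, Real.rpow_neg hlog.le]
      rw [one_div, mul_inv, div_eq_mul_inv]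
      ring
    rw [h7]
    have h8 : 0 ≤ Real.log (height d P) ^ (-A) := Real.rpow_nonneg hlog.le _
    exact mul_le_mul_of_nonneg_left (w_anti ε hε h4) h8

/-- **Theorem.** Let `d ≥ 2`, `ε > 0`, `κ ≥ 0` and `b > 1`. For almost every real vector `α ∈ ℝ ^ (d + 1)` the following
holds for all large `n`: for ALL integral polynomials `P` of degree `d`, irreducible over `ℚ`, whose coefficients
satisfy `|P_i - b ^ n α_i| ≤ n ^ κ`, all real roots `ξ` of `P`, all integers `p` and all `2 ≤ q ≤ H(P)`,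
`|ξ - p / q| > 1 / (q ^ 2 (log q) ^ (1 + ε) (log H(P)) ^ A)`, where `H(P)` is the height of `P` and
`A = (d + 2) (κ (d + 1) + 2)`. Moreover, the number of the exceptional vectors of coefficients in the cube
`[-H, H] ^ (d + 1)` is `O (H ^ (d + 1) / (log H) ^ K)`, if `A = K (d + 2)`, `K ≥ 1`. -/
theorem result (d : ℕ) (hd : 2 ≤ d) (ε : ℝ) (hε : 0 < ε) :
    (∀ κ b : ℝ, 0 ≤ κ → 1 < b → ∀ᵐ α : Fin (d + 1) → ℝ, ∃ n₀ : ℕ, ∀ n : ℕ, n₀ ≤ n →
      ∀ P : ℤ[X], P.natDegree = d → Irreducible (P.map (Int.castRingHom ℚ)) →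
        (∀ i : Fin (d + 1), |(P.coeff i : ℝ) - b ^ n * α i| ≤ (n : ℝ) ^ κ) →
        ∀ ξ : ℝ, Polynomial.aeval ξ P = 0 → ∀ (p : ℤ) (q : ℕ), 2 ≤ q → q ≤ height d P →
          1 / ((q : ℝ) ^ 2 * Real.log q ^ (1 + ε) *
            Real.log (height d P) ^ (((d : ℝ) + 2) * (κ * (d + 1) + 2))) < |ξ - (p : ℝ) / q|) ∧
    (∀ K : ℝ, 1 ≤ K → ∃ C : ℝ, ∃ H₀ : ℕ, ∀ H : ℕ, H₀ ≤ H →
      ({a : Fin (d + 1) → ℤ | (∀ i, |a i| ≤ (H : ℤ)) ∧ Bad d ε (K * (d + 2)) a}.ncard : ℝ) ≤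
        C * ((H : ℝ) ^ (d + 1) / Real.log H ^ K)) := by
  refine ⟨fun κ b hκ hb => ?_, fun K hK => ?_⟩
  · set K : ℝ := κ * (d + 1) + 2 with hK
    have hK2 : 2 ≤ K := by
      have : 0 ≤ κ * ((d : ℝ) + 1) := by positivity
      linarith
    obtain ⟨C, hC, H₀, hcount⟩ := count d ε K hε (by linarith)
    set ρ : ℕ → ℝ := fun n => min ((n : ℝ) ^ κ) (b ^ n) with hρ
    have hb0 : 0 < b := by linarith
    have hlb : 0 < Real.log b := Real.log_pos hb
    have hρ0 : ∀ n, 0 ≤ ρ n := fun n => le_min (by positivity) (by positivity)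
    have hae := Pool.Agent.V35.WAE.ae_windows (ι := Fin (d + 1)) (P := Bad d ε (K * (d + 2)))
      (g := fun H => C * Real.log H ^ (-K)) (H₀ := H₀) (fun H hH => by
        rw [Fintype.card_fin]
        exact hcount H hH)
      (v := fun n => b ^ n) (ρ := ρ) (fun n => one_le_pow₀ hb.le) (tendsto_pow_atTop_atTop_of_one_lt hb) hρ0
      (fun n => min_le_right _ _) (fun A => by
        rw [Fintype.card_fin]
        have hs : Summable fun n : ℕ => C * Real.log b ^ (-K) * (n : ℝ) ^ (-2 : ℝ) :=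
          (Real.summable_nat_rpow.2 (by norm_num)).mul_left _
        refine Summable.of_norm_bounded_eventually_nat hs ?_
        filter_upwards [eventually_ge_atTop 1] with n hn
        have hn1 : (1 : ℝ) ≤ n := by exact_mod_cast hn
        have hn0 : (0 : ℝ) < n := by linarith
        have h1 : (n : ℝ) * Real.log b ≤ Real.log (⌈((A : ℝ) + 1) * b ^ n⌉₊ : ℝ) := by
          rw [← Real.log_pow]
          apply Real.log_le_log (by positivity)
          have h2 : (b ^ n : ℝ) ≤ ((A : ℝ) + 1) * b ^ n := by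
            have : (0 : ℝ) ≤ A := Nat.cast_nonneg A
            have h3 : (0 : ℝ) < b ^ n := by positivity
            nlinarith
          exact h2.trans (Nat.le_ceil _)
        have h2 : Real.log (⌈((A : ℝ) + 1) * b ^ n⌉₊ : ℝ) ^ (-K) ≤ ((n : ℝ) * Real.log b) ^ (-K) :=
          Real.rpow_le_rpow_of_nonpos (by positivity) h1 (by linarith)
        have h0 : 0 ≤ Real.log (⌈((A : ℝ) + 1) * b ^ n⌉₊ : ℝ) ^ (-K) :=
          Real.rpow_nonneg ((by positivity : 0 ≤ (n : ℝ) * Real.log b).trans h1) _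
        have h3 : ρ n ^ (d + 1) ≤ (n : ℝ) ^ (κ * (d + 1)) := by
          calc ρ n ^ (d + 1) ≤ ((n : ℝ) ^ κ) ^ (d + 1) := pow_le_pow_left₀ (hρ0 n) (min_le_left _ _) _
            _ = (n : ℝ) ^ (κ * (d + 1)) := by
                rw [← Real.rpow_natCast, ← Real.rpow_mul hn0.le]
                push_cast
                rfl
        rw [Real.norm_eq_abs, abs_of_nonneg (mul_nonneg (mul_nonneg hC h0) (pow_nonneg (hρ0 n) _))]
        calc C * Real.log (⌈((A : ℝ) + 1) * b ^ n⌉₊ : ℝ) ^ (-K) * ρ n ^ (d + 1)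
            ≤ C * ((n : ℝ) * Real.log b) ^ (-K) * (n : ℝ) ^ (κ * (d + 1)) :=
              mul_le_mul (mul_le_mul_of_nonneg_left h2 hC) h3 (pow_nonneg (hρ0 n) _) (by positivity)
          _ = C * Real.log b ^ (-K) * ((n : ℝ) ^ (-K) * (n : ℝ) ^ (κ * (d + 1))) := by
              rw [Real.mul_rpow hn0.le hlb.le]
              ring
          _ = C * Real.log b ^ (-K) * (n : ℝ) ^ (-2 : ℝ) := by
              rw [← Real.rpow_add hn0]
              congr 2
              rw [hK]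
              ring)
    have hne : ∀ᵐ α : Fin (d + 1) → ℝ, α ≠ 0 := by
      rw [ae_iff]
      simp only [ne_eq, not_not]
      have : {α : Fin (d + 1) → ℝ | α = 0} = {0} := by ext; simp
      rw [this]
      exact measure_singleton _
    filter_upwards [hae, hne] with α hα hα0
    obtain ⟨n₀, hn₀⟩ := hα
    obtain ⟨i, hi⟩ : ∃ i, α i ≠ 0 := by
      by_contra hcon
      push Not at hcon
      exact hα0 (funext hcon)
    -- large `n`
    have hev1 : ∀ᶠ n : ℕ in atTop, (n : ℝ) ^ κ ≤ |α i| / 2 * b ^ n ∧ (n : ℝ) ^ κ ≤ b ^ n := by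
      have h1 : (fun n : ℕ => (n : ℝ) ^ κ) =o[atTop] fun n : ℕ => (Real.exp (Real.log b * n)) :=
        (isLittleO_rpow_exp_pos_mul_atTop κ hlb).comp_tendsto tendsto_natCast_atTop_atTop
      have h2 := h1.bound (show (0 : ℝ) < min (|α i| / 2) 1 from lt_min (by positivity) one_pos)
      filter_upwards [h2] with n hn
      have h3 : Real.exp (Real.log b * n) = b ^ n := by
        rw [mul_comm, Real.exp_nat_mul, Real.exp_log hb0]
      have h4 : (0 : ℝ) ≤ b ^ n := by positivity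
      rw [h3, Real.norm_eq_abs, Real.norm_eq_abs, abs_of_nonneg (show (0 : ℝ) ≤ (n : ℝ) ^ κ by positivity),
        abs_of_nonneg h4] at hn
      exact ⟨hn.trans (mul_le_mul_of_nonneg_right (min_le_left _ _) h4),
        hn.trans ((mul_le_mul_of_nonneg_right (min_le_right _ _) h4).trans (one_mul _).le)⟩
    have hev2 : ∀ᶠ n : ℕ in atTop, 2 ≤ |α i| / 2 * b ^ n :=
      ((tendsto_pow_atTop_atTop_of_one_lt hb).const_mul_atTop (by positivity)).eventually_ge_atTop 2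
    obtain ⟨n₁, hn₁⟩ := eventually_atTop.1 (hev1.and hev2)
    refine ⟨max n₀ n₁, fun n hn P hPd hPirr hP ξ hξ p q hq2 hqH => ?_⟩
    obtain ⟨⟨g1, g2⟩, g3⟩ := hn₁ n ((le_max_right _ _).trans hn)
    have hnb := hn₀ n ((le_max_left _ _).trans hn) (fun j : Fin (d + 1) => P.coeff j) (by
      have h1 : ρ n = (n : ℝ) ^ κ := min_eq_left g2
      rw [h1, pi_norm_le_iff_of_nonneg (by positivity)]
      intro j
      rw [Real.norm_eq_abs]
      exact hP j)
    have hA : ((d : ℝ) + 2) * (κ * (d + 1) + 2) = K * (d + 2) := by rw [hK]; ring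
    rw [hA]
    refine lang_of d hd ε (K * (d + 2)) hε P hPd hPirr ?_ hnb ξ hξ p q hq2 hqH
    have h1 := hP i
    have h2 : |b ^ n * α i| = b ^ n * |α i| := by rw [abs_mul, abs_of_nonneg (by positivity)]
    have h3 : |b ^ n * α i| ≤ |(P.coeff i : ℝ)| + |(P.coeff i : ℝ) - b ^ n * α i| := by
      have := abs_sub_abs_le_abs_sub (b ^ n * α i) (P.coeff i : ℝ)
      rw [abs_sub_comm] at this
      linarith
    have h4 : (2 : ℝ) ≤ |(P.coeff i : ℝ)| := by
      rw [h2] at h3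
      have : b ^ n * |α i| = |α i| / 2 * b ^ n + |α i| / 2 * b ^ n := by ring
      linarith
    have h5 := le_hgt (fun j : Fin (d + 1) => P.coeff j) i
    have h6 : (2 : ℤ) ≤ |P.coeff i| := by
      have : ((2 : ℤ) : ℝ) ≤ ((|P.coeff i| : ℤ) : ℝ) := by
        push_cast
        exact h4
      exact_mod_cast this
    have h7 : (2 : ℤ) ≤ (height d P : ℤ) := h6.trans h5
    exact_mod_cast h7
  · obtain ⟨C, hC, H₀, hcount⟩ := count d ε K hε hK
    refine ⟨C * 3 ^ (d + 1), max H₀ 2, fun H hH => (hcount H ((le_max_left _ _).trans hH)).trans ?_⟩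
    have hH2 : (2 : ℝ) ≤ H := by exact_mod_cast (le_max_right _ _).trans hH
    have hlog : 0 < Real.log H := Real.log_pos (by linarith)
    have h1 : (2 * (H : ℝ) + 1) ^ (d + 1) ≤ 3 ^ (d + 1) * (H : ℝ) ^ (d + 1) := by
      rw [← mul_pow]
      exact pow_le_pow_left₀ (by positivity) (by linarith) _
    have h2 : 0 ≤ C * Real.log H ^ (-K) := mul_nonneg hC (Real.rpow_nonneg hlog.le _)
    refine (mul_le_mul_of_nonneg_right h1 h2).trans (le_of_eq ?_)
    rw [Real.rpow_neg hlog.le, div_eq_mul_inv]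
    ring

end Pool.Agent.Results.MP_c307ca_nt.RootsNearRays
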